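import Mathlib
import Pool.Agent.J4.H38.BP.Defs
import Pool.Agent.J4.H31.DV.Rav1

/-! Project BP (helper38), pieces B1, B1': averages over the shifts of the excess of the local factors. -/

set_option autoImplicit false

namespace Pool.Agent.J4.H46.BP

open Finset Filter
open Pool.Agent.Y822
open Pool.Agent.J4.H38.SR
open Pool.Agent.J4.H38.SR2
open Pool.Agent.J4.H38.DV
open Pool.Agent.J4.H31.DV (count_int Wp Wp_pos prod_sq prod_small card_AW)
open Pool.Agent.H373R2.T7 (pz Vz mem_pz)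

lemma sumB (C : ℝ) (hC : 0 ≤ C) (a : ℤ) (w N H : ℕ) :
    ∑ t ∈ AW w N H, (∏ p ∈ (pz H).filter (fun p => w < p ∧ (p : ℤ) ∣ (t : ℤ) + a), (1 + C / (p : ℝ)) - 1) ≤
      H / Wp w * (∏ p ∈ (pz H).filter (fun p => w < p), (1 + C / (p : ℝ) ^ 2) - 1) +
        ∏ p ∈ pz H, (1 + C / (p : ℝ)) := by
  classical
  obtain ⟨S, hS⟩ : ∃ S, S = (pz H).filter (fun p => w < p) := ⟨_, rfl⟩
  have hSp : ∀ p ∈ S, p.Prime ∧ w < p := fun p hp => by
    rw [hS, mem_filter, mem_pz] at hp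
    exact ⟨hp.1.2, hp.2⟩
  rw [← hS]
  have h1 : ∀ t ∈ AW w N H, ∏ p ∈ (pz H).filter (fun p => w < p ∧ (p : ℤ) ∣ (t : ℤ) + a), (1 + C / (p : ℝ)) - 1 =
      ∑ P ∈ S.powerset.erase ∅, (∏ p ∈ P, C / (p : ℝ)) * (if (∀ p ∈ P, (p : ℤ) ∣ (t : ℤ) + a) then 1 else 0) := by
    intro t _
    have e1 : (pz H).filter (fun p => w < p ∧ (p : ℤ) ∣ (t : ℤ) + a) = S.filter (fun p : ℕ => (p : ℤ) ∣ (t : ℤ) + a) := by
      rw [hS, filter_filter]
    rw [e1, prod_one_add]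
    have h2 : (S.filter (fun p : ℕ => (p : ℤ) ∣ (t : ℤ) + a)).powerset =
        S.powerset.filter (fun P => ∀ p ∈ P, ((p : ℕ) : ℤ) ∣ (t : ℤ) + a) := by
      ext P
      simp only [mem_powerset, mem_filter, subset_iff]
      constructor
      · exact fun h => ⟨fun p hp => (h hp).1, fun p hp => (h hp).2⟩
      · exact fun h p hp => ⟨h.1 hp, h.2 p hp⟩
    rw [h2, sum_filter]
    have h3 : (∑ P ∈ S.powerset, if (∀ p ∈ P, ((p : ℕ) : ℤ) ∣ (t : ℤ) + a) then ∏ p ∈ P, C / (p : ℝ) else 0) =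
        ∑ P ∈ S.powerset, (∏ p ∈ P, C / (p : ℝ)) * (if (∀ p ∈ P, (p : ℤ) ∣ (t : ℤ) + a) then 1 else 0) := by
      refine sum_congr rfl fun P _ => ?_
      split_ifs <;> simp
    rw [h3, ← add_sum_erase S.powerset _ (empty_mem_powerset S)]
    simp
  rw [sum_congr rfl h1, sum_comm]
  have h3 : ∀ P ∈ S.powerset.erase ∅, ∑ t ∈ AW w N H,
      (∏ p ∈ P, C / (p : ℝ)) * (if (∀ p ∈ P, (p : ℤ) ∣ (t : ℤ) + a) then (1 : ℝ) else 0) ≤
      H / Wp w * ∏ p ∈ P, (C / (p : ℝ) ^ 2) + ∏ p ∈ P, (C / (p : ℝ)) := by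
    intro P hP
    rw [← mul_sum]
    have hPp : ∀ p ∈ P, p.Prime ∧ w < p := fun p hp => hSp p (mem_powerset.1 (mem_of_mem_erase hP) hp)
    have hPpos : 0 < ∏ p ∈ P, p := prod_pos fun p hp => (hPp p hp).1.pos
    have hcop : Nat.Coprime (Wp w) (∏ p ∈ P, p) := by
      unfold Wp
      refine Nat.Coprime.prod_left fun q hq => Nat.Coprime.prod_right fun p hp => ?_
      rw [Nat.coprime_primes (mem_pz.1 hq).2 (hPp p hp).1]
      have := (mem_pz.1 hq).1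
      have := (hPp p hp).2
      omega
    -- the residue class
    obtain ⟨b, hb1, hb2⟩ : ∃ b : ℤ, (Wp w : ℤ) ∣ b - N ∧ ((∏ p ∈ P, p : ℕ) : ℤ) ∣ b - a := by
      obtain ⟨u, v, huv⟩ := Nat.isCoprime_iff_coprime.2 hcop
      refine ⟨N * (v * ((∏ p ∈ P, p : ℕ) : ℤ)) + a * (u * (Wp w : ℤ)), ⟨u * (a - N), ?_⟩, ⟨v * (N - a), ?_⟩⟩
      · have h : v * ((∏ p ∈ P, p : ℕ) : ℤ) = 1 - u * (Wp w : ℤ) := by linarith
        rw [h]
        ring
      · have h : u * (Wp w : ℤ) = 1 - v * ((∏ p ∈ P, p : ℕ) : ℤ) := by linarith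
        rw [h]
        ring
    have h4 : ∑ t ∈ AW w N H, (if (∀ p ∈ P, (p : ℤ) ∣ (t : ℤ) + a) then (1 : ℝ) else 0) ≤
        H / ((Wp w * ∏ p ∈ P, p : ℕ) : ℝ) + 1 := by
      refine le_trans ?_ (count_int b H (Wp w * ∏ p ∈ P, p) (Nat.mul_pos (Wp_pos w) hPpos))
      have h5 : ∑ t ∈ AW w N H, (if (∀ p ∈ P, (p : ℤ) ∣ (t : ℤ) + a) then (1 : ℝ) else 0) ≤
          ∑ t ∈ AW w N H, (if ((Wp w * ∏ p ∈ P, p : ℕ) : ℤ) ∣ (t : ℤ) + b then (1 : ℝ) else 0) := by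
        refine sum_le_sum fun t ht => ?_
        by_cases h : ∀ p ∈ P, (p : ℤ) ∣ (t : ℤ) + a
        · have h5 : ((∏ p ∈ P, p : ℕ) : ℤ) ∣ (t : ℤ) + a := by
            rw [Int.natCast_dvd]
            refine Finset.prod_primes_dvd _ (fun p hp => (hPp p hp).1.prime) fun p hp => ?_
            exact Int.natCast_dvd.1 (h p hp)
          have h5' : ((∏ p ∈ P, p : ℕ) : ℤ) ∣ (t : ℤ) + b := by
            have := dvd_add h5 hb2
            rwa [show (t : ℤ) + a + (b - a) = (t : ℤ) + b by ring] at this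
          have h6 : (Wp w : ℤ) ∣ (t : ℤ) + b := by
            have h3 : Wp w ∣ N + t := (mem_filter.1 ht).2
            have h3' : (Wp w : ℤ) ∣ (t : ℤ) + N := by
              have : ((t : ℤ) + N) = ((N + t : ℕ) : ℤ) := by push_cast; ring
              rw [this]
              exact Int.natCast_dvd_natCast.2 h3
            have := dvd_add h3' hb1
            rwa [show (t : ℤ) + N + (b - N) = (t : ℤ) + b by ring] at this
          have h7 : ((Wp w * ∏ p ∈ P, p : ℕ) : ℤ) ∣ (t : ℤ) + b := by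
            rw [Int.natCast_dvd] at h5' h6 ⊢
            exact Nat.Coprime.mul_dvd_of_dvd_of_dvd hcop h6 h5'
          rw [if_pos h, if_pos h7]
        · rw [if_neg h]
          split_ifs <;> norm_num
      refine h5.trans ?_
      refine sum_le_sum_of_subset_of_nonneg (filter_subset _ _) fun t _ _ => ?_
      split_ifs <;> norm_num
    have h6 : 0 ≤ ∏ p ∈ P, C / (p : ℝ) := prod_nonneg fun p _ => by positivity
    have h7 : (∏ p ∈ P, C / (p : ℝ)) * (H / ((Wp w * ∏ p ∈ P, p : ℕ) : ℝ) + 1) =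
        H / Wp w * ∏ p ∈ P, (C / (p : ℝ) ^ 2) + ∏ p ∈ P, (C / (p : ℝ)) := by
      have h8 : ∏ p ∈ P, (C / (p : ℝ) ^ 2) = (∏ p ∈ P, C / (p : ℝ)) / ((∏ p ∈ P, p : ℕ) : ℝ) := by
        push_cast
        rw [← prod_div_distrib]
        refine prod_congr rfl fun p _ => ?_
        rw [sq, div_div]
      rw [h8]
      have h9 : ((∏ p ∈ P, p : ℕ) : ℝ) ≠ 0 := by exact_mod_cast hPpos.ne'
      have h10 : (Wp w : ℝ) ≠ 0 := by exact_mod_cast (by have := Wp_pos w; omega : Wp w ≠ 0)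
      rw [Nat.cast_mul]
      field_simp
    rw [← h7]
    exact mul_le_mul_of_nonneg_left h4 h6
  refine (sum_le_sum h3).trans ?_
  rw [sum_add_distrib, ← mul_sum]
  have h4 : ∑ P ∈ S.powerset.erase ∅, ∏ p ∈ P, (C / (p : ℝ) ^ 2) = ∏ p ∈ S, (1 + C / (p : ℝ) ^ 2) - 1 := by
    rw [prod_one_add, ← add_sum_erase S.powerset _ (empty_mem_powerset S)]
    simp
  have h5 : ∑ P ∈ S.powerset.erase ∅, ∏ p ∈ P, (C / (p : ℝ)) ≤ ∏ p ∈ pz H, (1 + C / (p : ℝ)) := by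
    have h6 : ∑ P ∈ S.powerset.erase ∅, ∏ p ∈ P, (C / (p : ℝ)) ≤ ∏ p ∈ S, (1 + C / (p : ℝ)) := by
      rw [prod_one_add]
      exact sum_le_sum_of_subset_of_nonneg (erase_subset _ _) fun P _ _ => prod_nonneg fun p _ => by positivity
    refine h6.trans ?_
    refine prod_le_prod_of_subset_of_one_le (by rw [hS]; exact filter_subset _ _) (fun p _ => by positivity)
      fun p _ _ => ?_
    have : 0 ≤ C / (p : ℝ) := by positivity
    linarith
  rw [h4]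
  linarith

/-- the primes `> H` contribute little -/
lemma big_B (C : ℝ) (hC : 0 ≤ C) (w y n H : ℕ) (hH : 3 ≤ H) (hn : 1 ≤ n) (hlog : Real.log n ≤ 2 * H) :
    ∏ p ∈ (pz y).filter (fun p => w < p ∧ p ∣ n), (1 + C / (p : ℝ)) ≤
      Real.exp (2 * C / Real.log H) *
        ∏ p ∈ (pz H).filter (fun p => w < p ∧ p ∣ n), (1 + C / (p : ℝ)) := by
  classical
  have hH0 : (0 : ℝ) < H := by exact_mod_cast (by omega : 0 < H)
  have hn0 : (0 : ℝ) < n := by exact_mod_cast (by omega : 0 < n)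
  have hH3 : (3 : ℝ) ≤ H := by exact_mod_cast hH
  have hlH : 1 ≤ Real.log H := by
    have h1 : Real.exp 1 ≤ H := le_trans (by have := Real.exp_one_lt_d9; linarith) hH3
    have := Real.log_le_log (Real.exp_pos 1) h1
    rwa [Real.log_exp] at this
  have hone : ∀ p : ℕ, (1 : ℝ) ≤ 1 + C / (p : ℝ) := fun p => by
    have : 0 ≤ C / (p : ℝ) := by positivity
    linarith
  have g2 : ∏ p ∈ (pz y).filter (fun p => w < p ∧ p ∣ n), (1 + C / (p : ℝ)) ≤
      ∏ p ∈ n.primeFactors.filter (fun p => w < p), (1 + C / (p : ℝ)) := by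
    refine prod_le_prod_of_subset_of_one_le ?_ (fun p _ => by positivity) fun p _ _ => hone p
    intro p hp
    rw [mem_filter, mem_pz] at hp
    rw [mem_filter, Nat.mem_primeFactors]
    exact ⟨⟨hp.1.2, hp.2.2, by omega⟩, hp.2.1⟩
  refine g2.trans ?_
  rw [← prod_filter_mul_prod_filter_not _ (fun p => H < p)]
  refine mul_le_mul ?_ ?_ (prod_nonneg fun p _ => by positivity) (Real.exp_pos _).le
  · have h1 : ∏ p ∈ (n.primeFactors.filter (fun p => w < p)).filter (fun p => H < p), (1 + C / (p : ℝ)) ≤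
        ∏ p ∈ n.primeFactors.filter (fun p => H < p), (1 + C / (p : ℝ)) := by
      refine prod_le_prod_of_subset_of_one_le ?_ (fun p _ => by positivity) fun p _ _ => hone p
      intro p hp
      rw [mem_filter, mem_filter] at hp
      exact mem_filter.2 ⟨hp.1.1, hp.2⟩
    refine h1.trans ?_
    have h1 : ∏ p ∈ n.primeFactors.filter (fun p => H < p), (1 + C / (p : ℝ)) ≤
        ∏ _p ∈ n.primeFactors.filter (fun p => H < p), Real.exp (C / (H : ℝ)) := by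
      refine prod_le_prod (fun p _ => by positivity) fun p hp => ?_
      have h2 : (H : ℝ) ≤ p := by exact_mod_cast (mem_filter.1 hp).2.le
      have h3 : C / (p : ℝ) ≤ C / H := div_le_div_of_nonneg_left hC hH0 h2
      have h4 := Real.add_one_le_exp (C / (H : ℝ))
      linarith
    refine h1.trans ?_
    rw [prod_const, ← Real.exp_nat_mul, Real.exp_le_exp]
    have h2 := card_big_le H n (by omega) hn
    have h3 : ((n.primeFactors.filter (fun p => H < p)).card : ℝ) ≤ Nat.log H n := by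
      exact_mod_cast h2
    have h4 : (Nat.log H n : ℝ) ≤ Real.logb H (n : ℝ) := Real.natLog_le_logb _ _
    have h5 : Real.logb H (n : ℝ) ≤ 2 * H / Real.log H := by
      unfold Real.logb
      exact div_le_div_of_nonneg_right hlog (by linarith)
    calc _ ≤ (2 * (H : ℝ) / Real.log H) * (C / H) :=
          mul_le_mul_of_nonneg_right (h3.trans (h4.trans h5)) (by positivity)
      _ = 2 * C / Real.log H := by field_simp
  · refine prod_le_prod_of_subset_of_one_le ?_ (fun p _ => by positivity) fun p _ _ => hone p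
    intro p hp
    rw [mem_filter, mem_filter, Nat.mem_primeFactors] at hp
    rw [mem_filter, mem_pz]
    exact ⟨⟨not_lt.1 hp.2, hp.1.1.1⟩, hp.1.2, hp.1.1.2.1⟩

/-- both averages -/
theorem bav (C η : ℝ) (hC : 0 ≤ C) (hη : 0 < η) : ∃ w₀ : ℕ, 2 ≤ w₀ ∧ ∀ w : ℕ, w₀ ≤ w → ∃ H₀ : ℕ, 3 ≤ H₀ ∧
    ∀ N H y : ℕ, H₀ ≤ H → ∀ a : ℤ,
    (∀ t ∈ AW w N H, ∃ n : ℕ, 1 ≤ n ∧ (t : ℤ) + a = n ∧ Real.log n ≤ 2 * H) →
    ∑ t ∈ AW w N H, (∏ p ∈ (pz y).filter (fun p => w < p ∧ (p : ℤ) ∣ (t : ℤ) + a), (1 + C / (p : ℝ)) - 1) ≤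
      η * (AW w N H).card := by
  classical
  refine ⟨2 + ⌈C⌉₊ + ⌈32 * C / η⌉₊, by omega, fun w hw => ?_⟩
  have hwc1 : ⌈C⌉₊ ≤ w := by omega
  have hwc2 : ⌈32 * C / η⌉₊ ≤ w := by omega
  have hwr1 : C ≤ w := (Nat.le_ceil _).trans (Nat.cast_le.2 hwc1)
  have hwr2 : 32 * C / η ≤ w := (Nat.le_ceil _).trans (Nat.cast_le.2 hwc2)
  have hw0 : (0 : ℝ) < w := by exact_mod_cast (by omega : 0 < w)
  have hW := Wp_pos w
  have hW0 : (0 : ℝ) < Wp w := by exact_mod_cast hW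
  have hCw : 2 * (C / w) ≤ η / 16 := by
    rw [div_le_iff₀ hη] at hwr2
    have h1 : C / w ≤ η / 32 := by
      rw [div_le_iff₀ hw0]
      linarith
    linarith
  -- conditions on `H`
  obtain ⟨ζ, hζ⟩ : ∃ ζ, ζ = min 1 (η / 4) := ⟨_, rfl⟩
  have hζ0 : 0 < ζ := by rw [hζ]; exact lt_min one_pos (by positivity)
  have hζ1 : ζ ≤ 1 := by rw [hζ]; exact min_le_left _ _
  have hζ2 : ζ ≤ η / 4 := by rw [hζ]; exact min_le_right _ _
  have hexp : ∀ᶠ H : ℕ in atTop, Real.exp (2 * C / Real.log H) ≤ 1 + ζ := by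
    have h1 : Tendsto (fun H : ℕ => Real.exp (2 * C / Real.log H)) atTop (nhds (Real.exp 0)) := by
      refine (Real.continuous_exp.tendsto 0).comp ?_
      exact Tendsto.div_atTop tendsto_const_nhds (Real.tendsto_log_atTop.comp tendsto_natCast_atTop_atTop)
    rw [Real.exp_zero] at h1
    exact h1.eventually_le_const (by linarith)
  have hsm := prod_small C hC (η / (16 * Wp w)) (by positivity)
  obtain ⟨H₀, hH₀⟩ := eventually_atTop.1 ((hexp.and hsm).and (eventually_ge_atTop (max 3 (2 * Wp w))))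
  refine ⟨max H₀ 3, le_max_right _ _, fun N H y hHH a hlog => ?_⟩
  obtain ⟨⟨hE, hP⟩, hH2⟩ := hH₀ H ((le_max_left _ _).trans hHH)
  have hH3 : 3 ≤ H := (le_max_left _ _).trans hH2
  have hHW : 2 * Wp w ≤ H := (le_max_right _ _).trans hH2
  have hH0 : (0 : ℝ) < H := by exact_mod_cast (by omega : 0 < H)
  have hcard := card_AW w N H
  have hcW : (2 : ℝ) ≤ H / Wp w := by
    rw [le_div_iff₀ hW0]
    exact_mod_cast hHW
  have hc1 : (1 : ℝ) ≤ (AW w N H).card := by linarith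
  have hHc : (H : ℝ) / Wp w ≤ 2 * (AW w N H).card := by linarith
  have hone : ∀ p : ℕ, (1 : ℝ) ≤ 1 + C / (p : ℝ) := fun p => by
    have : 0 ≤ C / (p : ℝ) := by positivity
    linarith
  -- the main bound
  have hmain : ∑ t ∈ AW w N H,
      (∏ p ∈ (pz H).filter (fun p => w < p ∧ (p : ℤ) ∣ (t : ℤ) + a), (1 + C / (p : ℝ)) - 1) ≤
        η / 4 * (AW w N H).card := by
    refine (sumB C hC a w N H).trans ?_
    have h1 := (prod_sq C hC w H (by omega) hwr1).trans hCw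
    have h2 : (H : ℝ) / Wp w * (∏ p ∈ (pz H).filter (fun p => w < p), (1 + C / (p : ℝ) ^ 2) - 1) ≤
        H / Wp w * (η / 16) := mul_le_mul_of_nonneg_left h1 (by positivity)
    have h3 : H / Wp w * (η / 16) ≤ 2 * (AW w N H).card * (η / 16) :=
      mul_le_mul_of_nonneg_right hHc (by positivity)
    have h4 : η / (16 * Wp w) * H = H / Wp w * (η / 16) := by field_simp
    rw [h4] at hP
    linarith
  have h1 : ∀ t ∈ AW w N H,
      ∏ p ∈ (pz y).filter (fun p => w < p ∧ (p : ℤ) ∣ (t : ℤ) + a), (1 + C / (p : ℝ)) - 1 ≤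
      2 * (∏ p ∈ (pz H).filter (fun p => w < p ∧ (p : ℤ) ∣ (t : ℤ) + a), (1 + C / (p : ℝ)) - 1) + η / 4 := by
    intro t ht
    obtain ⟨n, hn1, hn, hln⟩ := hlog t ht
    have h2 := big_B C hC w y n H hH3 hn1 hln
    simp only [hn, Int.natCast_dvd_natCast]
    obtain ⟨X, hX⟩ : ∃ X, X = ∏ p ∈ (pz H).filter (fun p => w < p ∧ p ∣ n), (1 + C / (p : ℝ)) := ⟨_, rfl⟩
    rw [← hX] at h2 ⊢
    have hX1 : 1 ≤ X := by
      rw [hX]
      calc (1 : ℝ) = ∏ _p ∈ (pz H).filter (fun p => w < p ∧ p ∣ n), (1 : ℝ) := by rw [prod_const_one]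
        _ ≤ _ := prod_le_prod (fun _ _ => zero_le_one) fun p _ => hone p
    have h4 : Real.exp (2 * C / Real.log H) * X ≤ (1 + ζ) * X := mul_le_mul_of_nonneg_right hE (by linarith)
    nlinarith [mul_nonneg (sub_nonneg.2 hζ1) (sub_nonneg.2 hX1)]
  refine (sum_le_sum h1).trans ?_
  rw [sum_add_distrib, ← mul_sum, sum_const, nsmul_eq_mul]
  nlinarith

/-- **B1** -/
theorem bavG (C η : ℝ) (hC : 0 ≤ C) (hη : 0 < η) (Δ : ℕ) : ∃ w₀ : ℕ, 2 ≤ w₀ ∧ ∀ w : ℕ, w₀ ≤ w → ∀ᶠ N : ℕ in atTop,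
    ∀ H y : ℕ, Real.log N ≤ H → H ≤ N → ∀ h : ℤ, |h| ≤ Δ →
    ∑ t ∈ AW w N H, (∏ p ∈ (pz y).filter (fun p => w < p ∧ (p : ℤ) ∣ (N : ℤ) + t + h), (1 + C / (p : ℝ)) - 1) ≤
      η * (AW w N H).card := by
  obtain ⟨w₀, hw₀2, hw₀⟩ := bav C η hC hη
  refine ⟨w₀, hw₀2, fun w hw => ?_⟩
  obtain ⟨H₀, hH₀3, hH₀⟩ := hw₀ w hw
  have hlogN : ∀ᶠ N : ℕ in atTop, (H₀ : ℝ) ≤ Real.log N :=
    (Real.tendsto_log_atTop.comp tendsto_natCast_atTop_atTop).eventually_ge_atTop _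
  filter_upwards [hlogN, eventually_ge_atTop (Δ + 1)] with N hN hNΔ H y hlog hHN h hh
  have hHH : H₀ ≤ H := by exact_mod_cast hN.trans hlog
  have hH3 : (3 : ℝ) ≤ H := by exact_mod_cast hH₀3.trans hHH
  rw [abs_le] at hh
  have key := hH₀ N H y hHH ((N : ℤ) + h) fun t ht => by
    have htH := mem_Icc.1 (mem_filter.1 ht).1
    refine ⟨((t : ℤ) + ((N : ℤ) + h)).toNat, by omega, by omega, ?_⟩
    have hN0 : (0 : ℝ) < N := by exact_mod_cast (by omega : 0 < N)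
    have h1 : ((((t : ℤ) + ((N : ℤ) + h)).toNat : ℕ) : ℝ) ≤ N * 3 := by
      exact_mod_cast (by omega : ((t : ℤ) + ((N : ℤ) + h)).toNat ≤ N * 3)
    have h2 : (0 : ℝ) < ((((t : ℤ) + ((N : ℤ) + h)).toNat : ℕ) : ℝ) := by
      exact_mod_cast (by omega : 0 < ((t : ℤ) + ((N : ℤ) + h)).toNat)
    have h3 := Real.log_le_log h2 h1
    rw [Real.log_mul hN0.ne' (by norm_num)] at h3
    have h4 : Real.log 3 ≤ 3 - 1 := Real.log_le_sub_one_of_pos (by norm_num)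
    linarith
  refine le_trans (le_of_eq ?_) key
  refine sum_congr rfl fun t _ => ?_
  have e : (N : ℤ) + t + h = (t : ℤ) + ((N : ℤ) + h) := by ring
  rw [e]

/-- **B1'** -/
theorem bavT (C η : ℝ) (hC : 0 ≤ C) (hη : 0 < η) (Δ : ℕ) : ∃ w₀ : ℕ, 2 ≤ w₀ ∧ ∀ w : ℕ, w₀ ≤ w → ∃ H₀ : ℕ,
    ∀ H y : ℕ, H₀ ≤ H → ∀ h : ℤ, |h| ≤ Δ →
    ∑ t ∈ AW w 0 H, (∏ p ∈ (pz y).filter (fun p => w < p ∧ (p : ℤ) ∣ (t : ℤ) + h), (1 + C / (p : ℝ)) - 1) ≤
      η * (AW w 0 H).card := by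
  obtain ⟨w₀, hw₀2, hw₀⟩ := bav C η hC hη
  obtain ⟨q, hq, hqp⟩ := Nat.exists_infinite_primes (Δ + 1)
  refine ⟨max w₀ q, hw₀2.trans (le_max_left _ _), fun w hw => ?_⟩
  obtain ⟨H₀, hH₀3, hH₀⟩ := hw₀ w ((le_max_left _ _).trans hw)
  refine ⟨max H₀ Δ, fun H y hH h hh => ?_⟩
  have hHH : H₀ ≤ H := (le_max_left _ _).trans hH
  have hHΔ : Δ ≤ H := (le_max_right _ _).trans hH
  rw [abs_le] at hh
  have hW : Δ + 1 ≤ Wp w := by
    have h1 : q ∣ Wp w := dvd_prod_of_mem _ (mem_pz.2 ⟨(le_max_right _ _).trans hw, hqp⟩)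
    exact hq.trans (Nat.le_of_dvd (Wp_pos w) h1)
  refine hH₀ 0 H y hHH h fun t ht => ?_
  have htH := mem_Icc.1 (mem_filter.1 ht).1
  have htW : Wp w ∣ 0 + t := (mem_filter.1 ht).2
  rw [zero_add] at htW
  have htW2 := Nat.le_of_dvd (by omega) htW
  refine ⟨((t : ℤ) + h).toNat, by omega, by omega, ?_⟩
  have h1 : ((((t : ℤ) + h).toNat : ℕ) : ℝ) ≤ 2 * H := by
    exact_mod_cast (by omega : ((t : ℤ) + h).toNat ≤ 2 * H)
  have h2 : (0 : ℝ) < ((((t : ℤ) + h).toNat : ℕ) : ℝ) := by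
    exact_mod_cast (by omega : 0 < ((t : ℤ) + h).toNat)
  have h3 := Real.log_le_sub_one_of_pos h2
  linarith

end Pool.Agent.J4.H46.BP
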